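import Mathlib
import Pool.Agent.V11298.CR.Alp

/-!
Waring's problem with randomly perturbed powers: counting lemmas.
-/

set_option autoImplicit false

open Finset

namespace Pool.Agent.V11298.WA

/-- The number of ways to hit a central value by a sum of `r` numbers below `D`. -/
theorem hit {r D e : ℕ} (hr : 1 ≤ r) (hD : 16 * r ≤ D) (h1 : r * D ≤ 4 * e)
    (h2 : 4 * e ≤ 3 * (r * D)) :
    D ^ r ≤ (8 * r) ^ r * D *
      (univ.filter fun u : Fin r → Fin D => ∑ i, (u i : ℕ) = e).card := by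
  obtain ⟨q, rfl⟩ : ∃ q, r = q + 1 := ⟨r - 1, by omega⟩
  set r := q + 1 with hrq
  set w := D / (8 * r) with hw
  set m := e / r with hm
  have hr0 : 0 < r := by omega
  have hw1 : 8 * r * w ≤ D := Nat.mul_div_le D (8 * r)
  have hw2 : D < 8 * r * (w + 1) := by
    have := Nat.lt_mul_div_succ D (show 0 < 8 * r by omega)
    exact this
  have hm1 : r * m ≤ e := Nat.mul_div_le e r
  have hm2 : e < r * (m + 1) := Nat.lt_mul_div_succ e hr0
  have hw1' : 8 * (r * w) ≤ D := by
    calc 8 * (r * w) = 8 * r * w := by ring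
      _ ≤ D := hw1
  -- `m` is between `D / 4 - 1` and `3 D / 4`
  have hm3 : D < 4 * (m + 1) := by
    by_contra hc
    push Not at hc
    have : r * (4 * (m + 1)) ≤ r * D := Nat.mul_le_mul_left r hc
    nlinarith
  have hm4 : 4 * m ≤ 3 * D := by
    by_contra hc
    push Not at hc
    have : r * (3 * D + 1) ≤ r * (4 * m) := Nat.mul_le_mul_left r hc
    nlinarith
  have hqw : q * w ≤ r * w := Nat.mul_le_mul_right w (by omega)
  have hwrw : w ≤ r * w := Nat.le_mul_of_pos_left w hr0
  have hmw : r * w + 1 ≤ m := by omega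
  have hS : ∀ v : Fin q → Fin (2 * w + 1), q * (m - w) ≤ ∑ i, (m - w + (v i : ℕ)) ∧
      ∑ i, (m - w + (v i : ℕ)) ≤ q * (m + w) := by
    intro v
    constructor
    · calc q * (m - w) = ∑ _i : Fin q, (m - w) := by simp
        _ ≤ _ := sum_le_sum fun i _ => Nat.le_add_right _ _
    · calc ∑ i, (m - w + (v i : ℕ)) ≤ ∑ _i : Fin q, (m + w) := sum_le_sum fun i _ => by
            have := (v i).2
            omega
        _ = _ := by simp
  have hle : ∀ v : Fin q → Fin (2 * w + 1), ∑ i, (m - w + (v i : ℕ)) ≤ e := by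
    intro v
    refine (hS v).2.trans ?_
    have : q * (m + w) = q * m + q * w := by ring
    have h3 : r * m = q * m + m := by rw [hrq]; ring
    omega
  have hlt : ∀ v : Fin q → Fin (2 * w + 1), e - ∑ i, (m - w + (v i : ℕ)) < D := by
    intro v
    have h3 := (hS v).1
    have h4 : q * m ≤ q * (m - w) + q * w := by
      rw [← Nat.mul_add]
      exact Nat.mul_le_mul_left q (by omega)
    have h5 : r * (m + 1) = q * m + m + r := by rw [hrq]; ring
    have h6 : 16 * r ≤ D := hD
    omega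
  have hlt2 : ∀ (v : Fin q → Fin (2 * w + 1)) (i : Fin q), m - w + (v i : ℕ) < D := by
    intro v i
    have := (v i).2
    omega
  have hcard : (2 * w + 1) ^ q ≤
      (univ.filter fun u : Fin (q + 1) → Fin D => ∑ i, (u i : ℕ) = e).card := by
    have h3 : (univ : Finset (Fin q → Fin (2 * w + 1))).card = (2 * w + 1) ^ q := by simp
    rw [← h3]
    refine Finset.card_le_card_of_injOn
      (fun v => Fin.cons (⟨e - ∑ i, (m - w + (v i : ℕ)), hlt v⟩ : Fin D)
        (fun i => (⟨m - w + (v i : ℕ), hlt2 v i⟩ : Fin D))) ?_ ?_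
    · intro v _
      refine mem_coe.2 (mem_filter.2 ⟨mem_univ _, ?_⟩)
      rw [Fin.sum_univ_succ]
      simp only [Fin.cons_zero, Fin.cons_succ]
      have := hle v
      omega
    · intro v _ v' _ h
      have h' := (Fin.cons_injective2 h).2
      funext i
      have := congrFun h' i
      simp only [Fin.mk.injEq] at this
      exact Fin.ext (by omega)
  have h5 : D ^ q ≤ (8 * r) ^ q * (2 * w + 1) ^ q := by
    rw [← mul_pow]
    refine Nat.pow_le_pow_left ?_ q
    have : 8 * r * (w + 1) ≤ 8 * r * (2 * w + 1) := Nat.mul_le_mul_left _ (by omega)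
    omega
  calc D ^ (q + 1) = D ^ q * D := pow_succ _ _
    _ ≤ (8 * r) ^ q * (2 * w + 1) ^ q * D := Nat.mul_le_mul_right _ h5
    _ = (8 * r) ^ q * D * (2 * w + 1) ^ q := by ring
    _ ≤ (8 * r) ^ (q + 1) * D * (2 * w + 1) ^ q := by
        refine Nat.mul_le_mul_right _ (Nat.mul_le_mul_right _ ?_)
        exact Nat.pow_le_pow_right (by omega) (by omega)
    _ ≤ _ := Nat.mul_le_mul_left _ hcard

/-- Families of functions that are determined off one coordinate. -/
theorem upd1 {κ α : Type} [Fintype κ] [DecidableEq κ] [Fintype α] [DecidableEq α]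
    (k1 : κ) (S : Finset (κ → α))
    (hS : ∀ t ∈ S, ∀ t' ∈ S, (∀ k, k ≠ k1 → t k = t' k) → t = t') :
    S.card * Fintype.card α ≤ Fintype.card (κ → α) := by
  have h : (S ×ˢ (univ : Finset α)).card ≤ (univ : Finset (κ → α)).card := by
    refine Finset.card_le_card_of_injOn (fun x => Function.update x.1 k1 x.2)
      (fun x _ => mem_coe.2 (mem_univ _)) ?_
    rintro ⟨t, a⟩ ht ⟨t', a'⟩ ht' h
    simp only at h
    have ht1 := (mem_product.1 (mem_coe.1 ht)).1
    have ht1' := (mem_product.1 (mem_coe.1 ht')).1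
    have ha : a = a' := by
      have := congrFun h k1
      simpa using this
    have hoff : ∀ k, k ≠ k1 → t k = t' k := by
      intro k hk
      have := congrFun h k
      simpa [Function.update_of_ne hk] using this
    rw [ha, hS t ht1 t' ht1' hoff]
  rwa [card_product, card_univ, card_univ] at h

/-- Families of functions that are determined off two coordinates. -/
theorem upd2 {κ α : Type} [Fintype κ] [DecidableEq κ] [Fintype α] [DecidableEq α]
    (k1 k2 : κ) (hk12 : k1 ≠ k2) (S : Finset (κ → α))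
    (hS : ∀ t ∈ S, ∀ t' ∈ S, (∀ k, k ≠ k1 → k ≠ k2 → t k = t' k) → t = t') :
    S.card * Fintype.card α ^ 2 ≤ Fintype.card (κ → α) := by
  have h : (S ×ˢ (univ : Finset (α × α))).card ≤ (univ : Finset (κ → α)).card := by
    refine Finset.card_le_card_of_injOn
      (fun x => Function.update (Function.update x.1 k1 x.2.1) k2 x.2.2)
      (fun x _ => mem_coe.2 (mem_univ _)) ?_
    rintro ⟨t, a, b⟩ ht ⟨t', a', b'⟩ ht' h
    simp only at h
    have ht1 := (mem_product.1 (mem_coe.1 ht)).1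
    have ht1' := (mem_product.1 (mem_coe.1 ht')).1
    have hb : b = b' := by
      have := congrFun h k2
      simpa using this
    have ha : a = a' := by
      have := congrFun h k1
      simpa [Function.update_of_ne hk12] using this
    have hoff : ∀ k, k ≠ k1 → k ≠ k2 → t k = t' k := by
      intro k hk hk'
      have := congrFun h k
      simpa [Function.update_of_ne hk, Function.update_of_ne hk'] using this
    rw [ha, hb, hS t ht1 t' ht1' hoff]
  rw [card_product, card_univ, card_univ, Fintype.card_prod] at h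
  rwa [pow_two]

/-- The success probability in one block. -/
theorem block {r L D : ℕ} (hr : 1 ≤ r) (hD : 16 * r ≤ D) (hL : D ≤ L ^ r)
    (e : (Fin r → Fin L) → ℕ) (he : ∀ x, r * D ≤ 4 * e x ∧ 4 * e x ≤ 3 * (r * D)) :
    (Fintype.card (Fin r × Fin L → Fin D) : ℝ) / (2 * ((8 * r : ℕ) : ℝ) ^ (2 * r)) ≤
      ((univ.filter fun t : Fin r × Fin L → Fin D =>
        ∃ x : Fin r → Fin L, ∑ i, (t (i, x i) : ℕ) = e x).card : ℝ) := by
  classical
  set T : ℝ := (Fintype.card (Fin r × Fin L → Fin D) : ℝ) with hT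
  have hD0 : 0 < D := by omega
  have hDr : (0 : ℝ) < D := by exact_mod_cast hD0
  have : Nonempty (Fin D) := ⟨⟨0, hD0⟩⟩
  have hTpos : 0 < T := by
    rw [hT]
    exact_mod_cast Fintype.card_pos
  set c : ℝ := ((8 * r : ℕ) : ℝ) ^ r with hc
  have hcpos : 0 < c := by
    rw [hc]
    have : (0 : ℝ) < ((8 * r : ℕ) : ℝ) := by exact_mod_cast (by omega : 0 < 8 * r)
    positivity
  have hc2 : ((8 * r : ℕ) : ℝ) ^ (2 * r) = c ^ 2 := by
    rw [hc, ← pow_mul, mul_comm r 2]
  set Ev : (Fin r → Fin L) → Finset (Fin r × Fin L → Fin D) := fun x =>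
    univ.filter fun t => ∑ i, (t (i, x i) : ℕ) = e x with hEv
  set R : (Fin r × Fin L → Fin D) → ℝ := fun t => ∑ x, if t ∈ Ev x then (1 : ℝ) else 0 with hR
  set Λ : ℝ := (L : ℝ) ^ r with hΛ
  have hΛcard : ((univ : Finset (Fin r → Fin L)).card : ℝ) = Λ := by simp [hΛ]
  have hΛD : (D : ℝ) ≤ Λ := by rw [hΛ]; exact_mod_cast hL
  have hΛpos : 0 < Λ := lt_of_lt_of_le hDr hΛD
  have hsumR : ∑ t, R t = ∑ x, ((Ev x).card : ℝ) := by
    rw [hR, sum_comm]
    refine sum_congr rfl fun x _ => ?_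
    rw [← sum_filter, sum_const, nsmul_eq_mul, mul_one]
    congr 2
    ext t
    simp
  -- lower bound for the first moment
  have hlow : ∀ x, T / (c * D) ≤ ((Ev x).card : ℝ) := by
    intro x
    have hinj : Function.Injective fun i : Fin r => (i, x i) := fun i j h => (Prod.ext_iff.1 h).1
    have h1 : (∑ t : Fin r × Fin L → Fin D,
        if ∑ i, (t (i, x i) : ℕ) = e x then (1 : ℝ) else 0) *
        (Fintype.card (Fin D) : ℝ) ^ Fintype.card (Fin r) =
        (Fintype.card (Fin D) : ℝ) ^ Fintype.card (Fin r × Fin L) *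
        ∑ u : Fin r → Fin D, if ∑ i, (u i : ℕ) = e x then (1 : ℝ) else 0 :=
      Pool.Agent.V11298.CR.restrict (α := Fin D)
        (⟨fun i : Fin r => (i, x i), hinj⟩ : Fin r ↪ Fin r × Fin L)
        (fun u => if ∑ i, (u i : ℕ) = e x then (1 : ℝ) else 0)
    have h2 : (∑ t : Fin r × Fin L → Fin D, if ∑ i, (t (i, x i) : ℕ) = e x then (1 : ℝ) else 0) =
        ((Ev x).card : ℝ) := by
      rw [← sum_filter, sum_const, nsmul_eq_mul, mul_one]
    have h3 : (∑ u : Fin r → Fin D, if ∑ i, (u i : ℕ) = e x then (1 : ℝ) else 0) =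
        ((univ.filter fun u : Fin r → Fin D => ∑ i, (u i : ℕ) = e x).card : ℝ) := by
      rw [← sum_filter, sum_const, nsmul_eq_mul, mul_one]
    rw [h2, h3] at h1
    have h4 : ((D ^ r : ℕ) : ℝ) ≤ (((8 * r) ^ r * D *
      (univ.filter fun u : Fin r → Fin D => ∑ i, (u i : ℕ) = e x).card : ℕ) : ℝ) := by
      exact_mod_cast hit hr hD (he x).1 (he x).2
    push_cast at h4
    have h5 : (Fintype.card (Fin D) : ℝ) = D := by simp
    have h6 : T = (Fintype.card (Fin D) : ℝ) ^ Fintype.card (Fin r × Fin L) := by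
      rw [hT, Fintype.card_fun]
      push_cast
      rfl
    rw [← h6, h5, Fintype.card_fin] at h1
    have hDr' : (0 : ℝ) < (D : ℝ) ^ r := by positivity
    rw [div_le_iff₀ (by positivity)]
    refine le_of_mul_le_mul_right ?_ hDr'
    have h7 : (8 * (r : ℝ)) ^ r = c := by
      rw [hc]
      push_cast
      rfl
    rw [h7] at h4
    calc T * (D : ℝ) ^ r ≤ T * (c * D *
          ((univ.filter fun u : Fin r → Fin D => ∑ i, (u i : ℕ) = e x).card : ℝ)) :=
          mul_le_mul_of_nonneg_left h4 hTpos.le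
      _ = (c * D) * (T * ((univ.filter fun u : Fin r → Fin D => ∑ i, (u i : ℕ) = e x).card : ℝ)) := by
          ring
      _ = (c * D) * (((Ev x).card : ℝ) * (D : ℝ) ^ r) := by rw [h1]
      _ = ((Ev x).card : ℝ) * (c * D) * (D : ℝ) ^ r := by ring
  -- upper bounds
  have hup1 : ∀ x, ((Ev x).card : ℝ) * D ≤ T := by
    intro x
    have h1 := upd1 ((⟨0, hr⟩ : Fin r), x ⟨0, hr⟩) (Ev x) (by
      intro t ht t' ht' hoff
      have h2 := (mem_filter.1 ht).2
      have h3 := (mem_filter.1 ht').2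
      rw [← add_sum_erase _ _ (mem_univ (⟨0, hr⟩ : Fin r))] at h2 h3
      have h4 : ∑ i ∈ univ.erase (⟨0, hr⟩ : Fin r), (t (i, x i) : ℕ) =
          ∑ i ∈ univ.erase (⟨0, hr⟩ : Fin r), (t' (i, x i) : ℕ) := by
        refine sum_congr rfl fun i hi => ?_
        rw [hoff (i, x i) fun h => (ne_of_mem_erase hi) (Prod.ext_iff.1 h).1]
      funext k
      by_cases hk : k = ((⟨0, hr⟩ : Fin r), x ⟨0, hr⟩)
      · subst hk
        exact Fin.ext (by omega)
      · exact hoff k hk)
    rw [Fintype.card_fin] at h1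
    rw [hT]
    exact_mod_cast h1
  have hup2 : ∀ x x', x ≠ x' → ((Ev x ∩ Ev x').card : ℝ) * (D : ℝ) ^ 2 ≤ T := by
    intro x x' hxx
    obtain ⟨i0, hi0⟩ := Function.ne_iff.1 hxx
    have h1 := upd2 (i0, x i0) (i0, x' i0) (fun h => hi0 (Prod.ext_iff.1 h).2) (Ev x ∩ Ev x') (by
      intro t ht t' ht' hoff
      obtain ⟨ht1, ht2⟩ := mem_inter.1 ht
      obtain ⟨ht3, ht4⟩ := mem_inter.1 ht'
      have e1 := (mem_filter.1 ht1).2
      have e2 := (mem_filter.1 ht2).2
      have e3 := (mem_filter.1 ht3).2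
      have e4 := (mem_filter.1 ht4).2
      rw [← add_sum_erase _ _ (mem_univ i0)] at e1 e2 e3 e4
      have hne : ∀ i ∈ univ.erase i0, ∀ y y' : Fin L, (i, y) ≠ (i0, y') := fun i hi y y' h =>
        (ne_of_mem_erase hi) (Prod.ext_iff.1 h).1
      have h4 : ∑ i ∈ univ.erase i0, (t (i, x i) : ℕ) =
          ∑ i ∈ univ.erase i0, (t' (i, x i) : ℕ) := by
        refine sum_congr rfl fun i hi => ?_
        rw [hoff (i, x i) (hne i hi _ _) (hne i hi _ _)]
      have h5 : ∑ i ∈ univ.erase i0, (t (i, x' i) : ℕ) =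
          ∑ i ∈ univ.erase i0, (t' (i, x' i) : ℕ) := by
        refine sum_congr rfl fun i hi => ?_
        rw [hoff (i, x' i) (hne i hi _ _) (hne i hi _ _)]
      funext k
      by_cases hk : k = (i0, x i0)
      · subst hk
        exact Fin.ext (by omega)
      · by_cases hk' : k = (i0, x' i0)
        · subst hk'
          exact Fin.ext (by omega)
        · exact hoff k hk hk')
    rw [Fintype.card_fin] at h1
    rw [hT]
    exact_mod_cast h1
  -- second moment
  have hsq : ∑ t, R t ^ 2 ≤ Λ * (T / D) + Λ ^ 2 * (T / D ^ 2) := by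
    have h1 : ∑ t, R t ^ 2 = ∑ x, ∑ x', ((Ev x ∩ Ev x').card : ℝ) := by
      have h2 : ∀ t, R t ^ 2 = ∑ x, ∑ x', if t ∈ Ev x ∩ Ev x' then (1 : ℝ) else 0 := by
        intro t
        rw [pow_two, hR]
        simp only
        rw [sum_mul_sum]
        refine sum_congr rfl fun x _ => sum_congr rfl fun x' _ => ?_
        by_cases h : t ∈ Ev x <;> by_cases h' : t ∈ Ev x' <;> simp [h, h']
      simp only [h2]
      rw [sum_comm]
      refine sum_congr rfl fun x _ => ?_
      rw [sum_comm]
      refine sum_congr rfl fun x' _ => ?_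
      rw [← sum_filter, sum_const, nsmul_eq_mul, mul_one]
      congr 2
      ext t
      simp
    rw [h1]
    have h2 : ∀ x x', ((Ev x ∩ Ev x').card : ℝ) ≤ (if x = x' then T / D else 0) + T / D ^ 2 := by
      intro x x'
      by_cases h : x = x'
      · subst h
        rw [if_pos rfl, inter_self]
        have h3 := hup1 x
        have h4 : ((Ev x).card : ℝ) ≤ T / D := by
          rw [le_div_iff₀ hDr]
          exact h3
        have : 0 ≤ T / (D : ℝ) ^ 2 := by positivity
        linarith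
      · rw [if_neg h, zero_add, le_div_iff₀ (by positivity)]
        exact hup2 x x' h
    calc ∑ x, ∑ x', ((Ev x ∩ Ev x').card : ℝ)
        ≤ ∑ x, ∑ x', ((if x = x' then T / D else 0) + T / D ^ 2) :=
          sum_le_sum fun x _ => sum_le_sum fun x' _ => h2 x x'
      _ = Λ * (T / D) + Λ ^ 2 * (T / D ^ 2) := by
          simp only [sum_add_distrib, sum_ite_eq, mem_univ, if_true, sum_const, nsmul_eq_mul]
          rw [hΛcard]
          ring
  have hfirst : Λ * (T / (c * D)) ≤ ∑ t, R t := by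
    rw [hsumR]
    calc Λ * (T / (c * D)) = ∑ _x : Fin r → Fin L, T / (c * D) := by
          rw [sum_const, nsmul_eq_mul, hΛcard]
      _ ≤ _ := sum_le_sum fun x _ => hlow x
  set G := univ.filter fun t : Fin r × Fin L → Fin D =>
        ∃ x : Fin r → Fin L, ∑ i, (t (i, x i) : ℕ) = e x with hG
  have hCS : (∑ t, R t) ^ 2 ≤ (G.card : ℝ) * ∑ t, R t ^ 2 := by
    have h1 : ∑ t, R t = ∑ t, (if t ∈ G then (1 : ℝ) else 0) * R t := by
      refine sum_congr rfl fun t _ => ?_
      by_cases h : t ∈ G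
      · rw [if_pos h, one_mul]
      · rw [if_neg h, zero_mul, hR]
        refine sum_eq_zero fun x _ => ?_
        rw [if_neg]
        intro hx
        exact h (mem_filter.2 ⟨mem_univ _, x, (mem_filter.1 hx).2⟩)
    rw [h1]
    refine (sum_mul_sq_le_sq_mul_sq _ _ _).trans (le_of_eq ?_)
    congr 1
    have : ∀ t, (if t ∈ G then (1 : ℝ) else 0) ^ 2 = if t ∈ G then (1 : ℝ) else 0 := by
      intro t
      by_cases h : t ∈ G <;> simp [h]
    simp only [this]
    rw [← sum_filter, sum_const, nsmul_eq_mul, mul_one]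
    congr 2
    ext t
    simp
  have hsq2 : ∑ t, R t ^ 2 ≤ 2 * Λ ^ 2 * T / D ^ 2 := by
    refine hsq.trans ?_
    have h1 : Λ * (T / D) ≤ Λ ^ 2 * T / D ^ 2 := by
      rw [mul_div_assoc', div_le_div_iff₀ hDr (by positivity)]
      have : Λ * T * D * D ≤ Λ * T * D * Λ := mul_le_mul_of_nonneg_left hΛD (by positivity)
      nlinarith
    have h2 : 2 * Λ ^ 2 * T / (D : ℝ) ^ 2 = Λ ^ 2 * T / D ^ 2 + Λ ^ 2 * (T / D ^ 2) := by ring
    rw [h2]
    linarith
  have hfin : (Λ * (T / (c * D))) ^ 2 ≤ (G.card : ℝ) * (2 * Λ ^ 2 * T / D ^ 2) := by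
    refine le_trans (pow_le_pow_left₀ (by positivity) hfirst 2) (hCS.trans ?_)
    exact mul_le_mul_of_nonneg_left hsq2 (by positivity)
  rw [hc2, div_le_iff₀ (by positivity)]
  have h8 : (Λ * (T / (c * D))) ^ 2 = (Λ ^ 2 * T / (c ^ 2 * D ^ 2)) * T := by
    field_simp
  have h9 : (G.card : ℝ) * (2 * Λ ^ 2 * T / D ^ 2) =
      (Λ ^ 2 * T / (c ^ 2 * D ^ 2)) * ((G.card : ℝ) * (2 * c ^ 2)) := by
    field_simp
  rw [h8, h9] at hfin
  exact le_of_mul_le_mul_left hfin (by positivity)

end Pool.Agent.V11298.WA
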