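import Mathlib
import Pool.Agent.V11298.WA.Cnt

/-!
Waring's problem with randomly perturbed powers: the greedy step and the union of the blocks.
-/

set_option autoImplicit false

open Finset Filter Topology

namespace Pool.Agent.V11298.WA

/-- One greedy step. -/
theorem step {k : ℕ} (hk : 1 ≤ k) (m : ℕ) : ∃ g : ℕ, g ^ k ≤ m ∧
    ((m - g ^ k : ℕ) : ℝ) ≤ (k * 2 ^ k : ℝ) * (m : ℝ) ^ (1 - 1 / (k : ℝ)) := by
  rcases Nat.eq_zero_or_pos m with h0 | hm
  · subst h0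
    refine ⟨0, by simp [Nat.pos_iff_ne_zero.1 hk], ?_⟩
    simp only [Nat.zero_sub, Nat.cast_zero]
    positivity
  -- the largest `g` with `g ^ k ≤ m`
  have hex : ∃ g : ℕ, m < (g + 1) ^ k := by
    refine ⟨m, ?_⟩
    calc m < m + 1 := Nat.lt_succ_self m
      _ = (m + 1) ^ 1 := (pow_one _).symm
      _ ≤ (m + 1) ^ k := Nat.pow_le_pow_right (by omega) hk
  set g := Nat.find hex with hg
  have h1 : m < (g + 1) ^ k := Nat.find_spec hex
  have h2 : g ^ k ≤ m := by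
    rcases Nat.eq_zero_or_pos g with h | h
    · rw [h, zero_pow (by omega)]
      exact Nat.zero_le _
    · have h3 := Nat.find_min hex (m := g - 1) (by omega)
      push Not at h3
      have : g - 1 + 1 = g := by omega
      rwa [this] at h3
  have hg1 : 1 ≤ g := by
    by_contra hc
    have : g = 0 := by omega
    rw [this, zero_add, one_pow] at h1
    omega
  refine ⟨g, h2, ?_⟩
  have hgR : (1 : ℝ) ≤ g := by exact_mod_cast hg1
  have h3 : ((m - g ^ k : ℕ) : ℝ) ≤ ((g : ℝ) + 1) ^ k - (g : ℝ) ^ k := by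
    rw [Nat.cast_sub h2]
    push_cast
    have : (m : ℝ) ≤ ((g : ℝ) + 1) ^ k := by exact_mod_cast h1.le
    linarith
  have h4 : ((g : ℝ) + 1) ^ k - (g : ℝ) ^ k ≤ k * ((g : ℝ) + 1) ^ (k - 1) := by
    have h5 : ((g : ℝ) + 1) ^ k - (g : ℝ) ^ k =
        ((g : ℝ) + 1 - g) * ∑ i ∈ range k, ((g : ℝ) + 1) ^ i * (g : ℝ) ^ (k - 1 - i) := by
      rw [mul_comm, Commute.geom_sum₂_mul (Commute.all _ _)]
    rw [h5]
    have h6 : ((g : ℝ) + 1 - g) = 1 := by ring
    rw [h6, one_mul]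
    calc ∑ i ∈ range k, ((g : ℝ) + 1) ^ i * (g : ℝ) ^ (k - 1 - i)
        ≤ ∑ i ∈ range k, ((g : ℝ) + 1) ^ (k - 1) := by
          refine sum_le_sum fun i hi => ?_
          have hi' := mem_range.1 hi
          calc ((g : ℝ) + 1) ^ i * (g : ℝ) ^ (k - 1 - i)
              ≤ ((g : ℝ) + 1) ^ i * ((g : ℝ) + 1) ^ (k - 1 - i) := by
                refine mul_le_mul_of_nonneg_left ?_ (by positivity)
                exact pow_le_pow_left₀ (by positivity) (by linarith) _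
            _ = ((g : ℝ) + 1) ^ (k - 1) := by
                rw [← pow_add]
                congr 1
                omega
      _ = k * ((g : ℝ) + 1) ^ (k - 1) := by simp
  have h5 : ((g : ℝ) + 1) ^ (k - 1) ≤ 2 ^ (k - 1) * (g : ℝ) ^ (k - 1) := by
    rw [← mul_pow]
    exact pow_le_pow_left₀ (by positivity) (by linarith) _
  have h6 : (g : ℝ) ^ (k - 1) ≤ (m : ℝ) ^ (1 - 1 / (k : ℝ)) := by
    have hk0 : (0 : ℝ) < k := by exact_mod_cast hk
    have h7 : (g : ℝ) ^ (k - 1) = ((g : ℝ) ^ k) ^ (1 - 1 / (k : ℝ)) := by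
      rw [← Real.rpow_natCast, ← Real.rpow_natCast, ← Real.rpow_mul (by positivity)]
      congr 1
      rw [Nat.cast_sub hk]
      field_simp
      simp
    rw [h7]
    refine Real.rpow_le_rpow (by positivity) (by exact_mod_cast h2) ?_
    rw [sub_nonneg, div_le_one hk0]
    exact_mod_cast hk
  have h7 : (2 : ℝ) ^ (k - 1) ≤ 2 ^ k := pow_le_pow_right₀ (by norm_num) (by omega)
  calc ((m - g ^ k : ℕ) : ℝ) ≤ k * ((g : ℝ) + 1) ^ (k - 1) := h3.trans h4
    _ ≤ k * (2 ^ (k - 1) * (g : ℝ) ^ (k - 1)) := mul_le_mul_of_nonneg_left h5 (by positivity)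
    _ ≤ k * (2 ^ k * (m : ℝ) ^ (1 - 1 / (k : ℝ))) := by
        refine mul_le_mul_of_nonneg_left ?_ (by positivity)
        exact mul_le_mul h7 h6 (by positivity) (by positivity)
    _ = _ := by ring

/-- Several greedy steps. -/
theorem greedy {k : ℕ} (hk : 1 ≤ k) (s : ℕ) : ∀ m : ℕ, ∃ g : Fin s → ℕ, ∑ j, g j ^ k ≤ m ∧
    ((m - ∑ j, g j ^ k : ℕ) : ℝ) ≤
      (k * 2 ^ k : ℝ) ^ s * (m : ℝ) ^ ((1 - 1 / (k : ℝ)) ^ s) := by
  have hk0 : (0 : ℝ) < k := by exact_mod_cast hk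
  have hk1 : (1 : ℝ) ≤ k := by exact_mod_cast hk
  have hθ0 : 0 ≤ 1 - 1 / (k : ℝ) := by
    rw [sub_nonneg, div_le_one hk0]
    exact hk1
  have hθ1 : 1 - 1 / (k : ℝ) ≤ 1 := by
    have : 0 ≤ 1 / (k : ℝ) := by positivity
    linarith
  have hC : (1 : ℝ) ≤ k * 2 ^ k := by
    have : (1 : ℝ) ≤ 2 ^ k := one_le_pow₀ (by norm_num)
    nlinarith
  induction s with
  | zero =>
    intro m
    refine ⟨Fin.elim0, by simp, ?_⟩
    simp
  | succ s ih =>
    intro m
    obtain ⟨g0, h1, h2⟩ := step hk m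
    obtain ⟨g, h3, h4⟩ := ih (m - g0 ^ k)
    refine ⟨Fin.cons g0 g, ?_, ?_⟩
    · rw [Fin.sum_univ_succ]
      simp only [Fin.cons_zero, Fin.cons_succ]
      omega
    · rw [Fin.sum_univ_succ]
      simp only [Fin.cons_zero, Fin.cons_succ]
      rw [← Nat.sub_sub]
      refine h4.trans ?_
      set θ := (1 - 1 / (k : ℝ)) with hθ
      set C := (k * 2 ^ k : ℝ) with hCd
      have hθs : 0 ≤ θ ^ s := pow_nonneg hθ0 s
      have hθs1 : θ ^ s ≤ 1 := pow_le_one₀ hθ0 hθ1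
      have h5 : (((m - g0 ^ k : ℕ) : ℝ)) ^ (θ ^ s) ≤ (C * (m : ℝ) ^ θ) ^ (θ ^ s) :=
        Real.rpow_le_rpow (by positivity) h2 hθs
      have h6 : (C * (m : ℝ) ^ θ) ^ (θ ^ s) = C ^ (θ ^ s) * (m : ℝ) ^ (θ ^ (s + 1)) := by
        rw [Real.mul_rpow (by linarith) (by positivity), ← Real.rpow_mul (Nat.cast_nonneg m)]
        congr 2
        ring
      have h7 : C ^ (θ ^ s) ≤ C := by
        calc C ^ (θ ^ s) ≤ C ^ (1 : ℝ) := Real.rpow_le_rpow_of_exponent_le hC hθs1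
          _ = C := Real.rpow_one C
      calc C ^ s * (((m - g0 ^ k : ℕ) : ℝ)) ^ (θ ^ s)
          ≤ C ^ s * (C ^ (θ ^ s) * (m : ℝ) ^ (θ ^ (s + 1))) := by
            rw [← h6]
            exact mul_le_mul_of_nonneg_left h5 (by positivity)
        _ ≤ C ^ s * (C * (m : ℝ) ^ (θ ^ (s + 1))) := by
            refine mul_le_mul_of_nonneg_left ?_ (by positivity)
            exact mul_le_mul_of_nonneg_right h7 (by positivity)
        _ = C ^ (s + 1) * (m : ℝ) ^ (θ ^ (s + 1)) := by ring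

/-- All blocks together. -/
theorem blocks {r L D M : ℕ} (hr : 1 ≤ r) (hD : 16 * r ≤ D) (hL : D ≤ L ^ r)
    (e : Fin M → (Fin r → Fin L) → ℕ)
    (he : ∀ j x, r * D ≤ 4 * e j x ∧ 4 * e j x ≤ 3 * (r * D)) :
    ((univ.filter fun t : Fin M × (Fin r × Fin L) → Fin D =>
      ∀ j, ¬ ∃ x : Fin r → Fin L, ∑ i, (t (j, (i, x i)) : ℕ) = e j x).card : ℝ) ≤
    (1 - 1 / (2 * ((8 * r : ℕ) : ℝ) ^ (2 * r))) ^ M *
      (Fintype.card (Fin r × Fin L → Fin D) : ℝ) ^ M := by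
  classical
  set Bad : Fin M → Finset (Fin r × Fin L → Fin D) := fun j => univ.filter fun t =>
    ¬ ∃ x : Fin r → Fin L, ∑ i, (t (i, x i) : ℕ) = e j x with hBad
  set T : ℝ := (Fintype.card (Fin r × Fin L → Fin D) : ℝ) with hT
  set c : ℝ := 1 / (2 * ((8 * r : ℕ) : ℝ) ^ (2 * r)) with hc
  have h1 : ∀ j, ((Bad j).card : ℝ) ≤ (1 - c) * T := by
    intro j
    have h2 := block hr hD hL (e j) (he j)
    have h3 : ((univ.filter fun t : Fin r × Fin L → Fin D =>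
        ∃ x : Fin r → Fin L, ∑ i, (t (i, x i) : ℕ) = e j x).card : ℝ) + ((Bad j).card : ℝ) = T := by
      rw [hT, hBad]
      have := card_filter_add_card_filter_not (s := (univ : Finset (Fin r × Fin L → Fin D)))
        (fun t => ∃ x : Fin r → Fin L, ∑ i, (t (i, x i) : ℕ) = e j x)
      rw [card_univ] at this
      exact_mod_cast this
    have h4 : T / (2 * ((8 * r : ℕ) : ℝ) ^ (2 * r)) = c * T := by
      rw [hc]
      ring
    rw [h4] at h2
    linarith
  have h2 : (univ.filter fun t : Fin M × (Fin r × Fin L) → Fin D =>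
      ∀ j, ¬ ∃ x : Fin r → Fin L, ∑ i, (t (j, (i, x i)) : ℕ) = e j x).card ≤
      (Fintype.piFinset Bad).card := by
    refine Finset.card_le_card_of_injOn (fun t j b => t (j, b)) ?_ ?_
    · intro t ht
      refine mem_coe.2 (Fintype.mem_piFinset.2 fun j => mem_filter.2 ⟨mem_univ _, ?_⟩)
      exact (mem_filter.1 (mem_coe.1 ht)).2 j
    · intro t _ t' _ h
      funext ⟨j, b⟩
      exact congrFun (congrFun h j) b
  rw [Fintype.card_piFinset] at h2
  calc ((univ.filter fun t : Fin M × (Fin r × Fin L) → Fin D =>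
      ∀ j, ¬ ∃ x : Fin r → Fin L, ∑ i, (t (j, (i, x i)) : ℕ) = e j x).card : ℝ)
      ≤ ((∏ j, (Bad j).card : ℕ) : ℝ) := by exact_mod_cast h2
    _ = ∏ j, ((Bad j).card : ℝ) := by push_cast; rfl
    _ ≤ ∏ _j : Fin M, ((1 - c) * T) := prod_le_prod (fun j _ => by positivity) fun j _ => h1 j
    _ = ((1 - c) * T) ^ M := by simp
    _ = _ := mul_pow _ _ _

end Pool.Agent.V11298.WA
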