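import Mathlib
import Pool.Agent.V11298.WA.Gre

/-!
Waring's problem with randomly perturbed powers: the main theorem.
-/

set_option autoImplicit false

open Finset Filter Topology

namespace Pool.Agent.V11298.WA

/-- `N` is a sum of `r` perturbed powers `n ^ k + t n` with different `n` in `[P, 2 P)` and of `s`
exact powers. The perturbation `t` is given as a function on `{0, ..., P - 1}`: it belongs to the
power of `n = P + x`. -/
def Rep (k r s P D : ℕ) (t : Fin P → Fin D) (N : ℕ) : Prop :=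
  ∃ (x : Fin r → Fin P) (g : Fin s → ℕ), Function.Injective x ∧
    ∑ i, ((P + (x i : ℕ)) ^ k + (t (x i) : ℕ)) + ∑ j, g j ^ k = N

open Classical in
theorem one_target {k r s P L D M : ℕ} (hk : 1 ≤ k) (hr : 1 ≤ r) (hD : 16 * r ≤ D)
    (hDP : D ≤ P ^ k)
    (hL : D ≤ L ^ r) (hM : M * (r * L) ≤ P)
    (hgr : (k * 2 ^ k : ℝ) ^ s * (((16 * r * P : ℕ) : ℝ) ^ k) ^ ((1 - 1 / (k : ℝ)) ^ s) ≤ D / 4)
    {N : ℕ} (hN1 : (8 * r * P) ^ k ≤ N) (hN2 : N ≤ (16 * r * P) ^ k) :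
    ((univ.filter fun t : Fin P → Fin D => ¬ Rep k r s P D t N).card : ℝ) ≤
      (1 - 1 / (2 * ((8 * r : ℕ) : ℝ) ^ (2 * r))) ^ M * (D : ℝ) ^ P := by
  classical
  have hinj : Function.Injective fun b : Fin M × (Fin r × Fin L) =>
      Fin.castLE hM (finProdFinEquiv (b.1, finProdFinEquiv b.2)) := by
    intro b b' h
    have h1 := Fin.castLE_injective hM h
    have h2 := finProdFinEquiv.injective h1
    obtain ⟨h3, h4⟩ := Prod.ext_iff.1 h2
    exact Prod.ext h3 (finProdFinEquiv.injective h4)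
  set em : Fin M × (Fin r × Fin L) ↪ Fin P :=
    ⟨fun b => Fin.castLE hM (finProdFinEquiv (b.1, finProdFinEquiv b.2)), hinj⟩ with hem
  -- the sum of the main terms
  set S : Fin M → (Fin r → Fin L) → ℕ := fun j y => ∑ i, (P + (em (j, (i, y i)) : ℕ)) ^ k with hS
  set E0 := (r * D) / 2 with hE0
  have hSle : ∀ j y, S j y + E0 ≤ N := by
    intro j y
    refine le_trans ?_ hN1
    have h1 : S j y ≤ r * (2 * P) ^ k := by
      calc S j y ≤ ∑ _i : Fin r, (2 * P) ^ k := sum_le_sum fun i _ =>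
            Nat.pow_le_pow_left (by have := (em (j, (i, y i))).2; omega) k
        _ = _ := by simp
    have h2 : E0 ≤ r * P ^ k := (Nat.div_le_self _ _).trans (Nat.mul_le_mul_left r hDP)
    have h3 : r * (2 * P) ^ k + r * P ^ k ≤ (8 * r * P) ^ k := by
      have e1 : (2 * P) ^ k = 2 ^ k * P ^ k := mul_pow _ _ _
      have e2 : (8 * r * P) ^ k = 8 ^ k * r ^ k * P ^ k := by rw [mul_pow, mul_pow]
      have e3 : r ≤ r ^ k := by
        calc r = r ^ 1 := (pow_one r).symm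
          _ ≤ r ^ k := Nat.pow_le_pow_right hr hk
      have e4 : 2 ^ k + 1 ≤ 8 ^ k := by
        have e5 : 2 ^ k * 2 ≤ 2 ^ k * 4 ^ k := by
          refine Nat.mul_le_mul_left _ ?_
          calc 2 ≤ 4 ^ 1 := by norm_num
            _ ≤ 4 ^ k := Nat.pow_le_pow_right (by norm_num) hk
        have e6 : 2 ^ k * 4 ^ k = 8 ^ k := by
          rw [← mul_pow]
          norm_num
        have e7 : 1 ≤ 2 ^ k := Nat.one_le_two_pow
        omega
      rw [e1, e2]
      calc r * (2 ^ k * P ^ k) + r * P ^ k = (2 ^ k + 1) * r * P ^ k := by ring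
        _ ≤ 8 ^ k * r ^ k * P ^ k :=
          Nat.mul_le_mul_right _ (Nat.mul_le_mul e4 e3)
    omega
  -- the greedy choice
  have hex : ∀ m : ℕ, ∃ g : Fin s → ℕ, ∑ j, g j ^ k ≤ m ∧
    ((m - ∑ j, g j ^ k : ℕ) : ℝ) ≤
      (k * 2 ^ k : ℝ) ^ s * (m : ℝ) ^ ((1 - 1 / (k : ℝ)) ^ s) := greedy hk s
  choose g hg1 hg2 using hex
  set e : Fin M → (Fin r → Fin L) → ℕ := fun j y =>
    E0 + ((N - (S j y + E0)) - ∑ i, g (N - (S j y + E0)) i ^ k) with he
  have hθ0 : 0 ≤ 1 - 1 / (k : ℝ) := by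
    have hk0 : (0 : ℝ) < k := by exact_mod_cast hk
    rw [sub_nonneg, div_le_one hk0]
    exact_mod_cast hk
  have hrem : ∀ j y, 4 * ((N - (S j y + E0)) - ∑ i, g (N - (S j y + E0)) i ^ k) ≤ D := by
    intro j y
    have h1 := hg2 (N - (S j y + E0))
    have h2 : (((N - (S j y + E0) : ℕ)) : ℝ) ^ ((1 - 1 / (k : ℝ)) ^ s) ≤
        (((16 * r * P : ℕ) : ℝ) ^ k) ^ ((1 - 1 / (k : ℝ)) ^ s) := by
      refine Real.rpow_le_rpow (by positivity) ?_ (pow_nonneg hθ0 s)
      exact_mod_cast (Nat.sub_le _ _).trans hN2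
    have h3 := (h1.trans (mul_le_mul_of_nonneg_left h2 (by positivity))).trans hgr
    have h4 : ((4 * ((N - (S j y + E0)) - ∑ i, g (N - (S j y + E0)) i ^ k) : ℕ) : ℝ) ≤
        (D : ℝ) := by
      push_cast at h3 ⊢
      linarith
    exact_mod_cast h4
  have hecond : ∀ j y, r * D ≤ 4 * e j y ∧ 4 * e j y ≤ 3 * (r * D) := by
    intro j y
    have h1 := hrem j y
    have h2 : D ≤ r * D := Nat.le_mul_of_pos_left D hr
    have h3 : 2 ≤ r * D := by omega
    have h5 : e j y = E0 + ((N - (S j y + E0)) - ∑ i, g (N - (S j y + E0)) i ^ k) := rfl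
    constructor
    · omega
    · omega
  have hbl := blocks (M := M) hr hD hL e hecond
  -- the restriction to the blocks
  set F : Finset (Fin M × (Fin r × Fin L) → Fin D) :=
    univ.filter fun u => ∀ j, ¬ ∃ y : Fin r → Fin L, ∑ i, (u (j, (i, y i)) : ℕ) = e j y with hF
  have hre := Pool.Agent.V11298.CR.restrict (α := Fin D) em
    (fun u => if u ∈ F then (1 : ℝ) else 0)
  have h1 : ((univ.filter fun t : Fin P → Fin D => ¬ Rep k r s P D t N).card : ℝ) ≤
      ∑ t : Fin P → Fin D, (if (fun b => t (em b)) ∈ F then (1 : ℝ) else 0) := by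
    rw [← sum_filter, sum_const, nsmul_eq_mul, mul_one]
    refine Nat.cast_le.2 (card_le_card fun t ht => ?_)
    have ht' := (mem_filter.1 ht).2
    refine mem_filter.2 ⟨mem_univ _, mem_filter.2 ⟨mem_univ _, ?_⟩⟩
    rintro j ⟨y, hy⟩
    refine ht' ⟨fun i => em (j, (i, y i)), g (N - (S j y + E0)), ?_, ?_⟩
    · intro i i' hii
      have := em.injective hii
      exact (Prod.ext_iff.1 (Prod.ext_iff.1 this).2).1
    · rw [sum_add_distrib]
      have h2 : ∑ i, (t (em (j, (i, y i))) : ℕ) = e j y := hy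
      have h3 : ∑ i, (P + (em (j, (i, y i)) : ℕ)) ^ k = S j y := rfl
      rw [h2, h3]
      have h4 := hSle j y
      have h5 := hg1 (N - (S j y + E0))
      have h6 : e j y = E0 + ((N - (S j y + E0)) - ∑ i, g (N - (S j y + E0)) i ^ k) := rfl
      omega
  have h2 : (∑ u : Fin M × (Fin r × Fin L) → Fin D, if u ∈ F then (1 : ℝ) else 0) =
      (F.card : ℝ) := by
    rw [← sum_filter, sum_const, nsmul_eq_mul, mul_one]
    congr 2
    ext u
    simp
  rw [h2] at hre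
  have hcD : (Fintype.card (Fin D) : ℝ) = D := by simp
  have hcardT : (Fintype.card (Fin r × Fin L → Fin D) : ℝ) ^ M =
      (D : ℝ) ^ Fintype.card (Fin M × (Fin r × Fin L)) := by
    rw [Fintype.card_fun, Fintype.card_fin, Fintype.card_prod (Fin M), Fintype.card_fin]
    push_cast
    rw [← pow_mul, mul_comm]
  rw [hcD, Fintype.card_fin] at hre
  have hDpos : (0 : ℝ) < D := by exact_mod_cast (by omega : 0 < D)
  refine h1.trans ?_
  have hpos : (0 : ℝ) < (D : ℝ) ^ Fintype.card (Fin M × (Fin r × Fin L)) := by positivity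
  refine le_of_mul_le_mul_right ?_ hpos
  rw [hre]
  calc (D : ℝ) ^ P * (F.card : ℝ) ≤ (D : ℝ) ^ P *
        ((1 - 1 / (2 * ((8 * r : ℕ) : ℝ) ^ (2 * r))) ^ M *
        (D : ℝ) ^ Fintype.card (Fin M × (Fin r × Fin L))) := by
        refine mul_le_mul_of_nonneg_left ?_ (by positivity)
        rw [← hcardT]
        exact hbl
    _ = _ := by ring

open Classical in
/-- The main theorem. -/
theorem main {k d s : ℕ} (hd : 1 ≤ d) (hdk : d ≤ k)
    (hs : (k : ℝ) * (1 - 1 / (k : ℝ)) ^ s < d) : ∃ c : ℝ, 0 < c ∧ ∀ᶠ P : ℕ in atTop,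
    ((univ.filter fun t : Fin P → Fin (P ^ d) =>
      ∃ N : ℕ, (8 * (d + 1) * P) ^ k ≤ N ∧ N ≤ (16 * (d + 1) * P) ^ k ∧
        ¬ Rep k (d + 1) s P (P ^ d) t N).card : ℝ) ≤
      Real.exp (-(c * (P : ℝ) ^ (1 / (2 * (d : ℝ) + 2)))) * ((P : ℝ) ^ d) ^ P := by
  classical
  set r := d + 1 with hr
  have hk : 1 ≤ k := hd.trans hdk
  have hk0 : (0 : ℝ) < k := by exact_mod_cast hk
  have hd1 : (1 : ℝ) ≤ d := by exact_mod_cast hd
  set β : ℝ := 1 / (2 * (d : ℝ) + 2) with hβ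
  have hβ0 : 0 < β := by rw [hβ]; positivity
  have hβ1 : β ≤ 1 / 4 := by
    rw [hβ]
    exact one_div_le_one_div_of_le (by norm_num) (by linarith)
  have hrβ : (r : ℝ) * (1 - β) = d + 1 / 2 := by
    rw [hβ, hr]
    push_cast
    field_simp
    ring
  set c0 : ℝ := 1 / (2 * ((8 * r : ℕ) : ℝ) ^ (2 * r)) with hc0
  have h8r : (1 : ℝ) ≤ ((8 * r : ℕ) : ℝ) := by exact_mod_cast (by omega : 1 ≤ 8 * r)
  have hc0pos : 0 < c0 := by
    rw [hc0]
    have : (0 : ℝ) < ((8 * r : ℕ) : ℝ) := by linarith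
    positivity
  have hc01 : c0 ≤ 1 := by
    rw [hc0, div_le_one (by have : (0 : ℝ) < ((8 * r : ℕ) : ℝ) := by linarith
                            positivity)]
    have : (1 : ℝ) ≤ ((8 * r : ℕ) : ℝ) ^ (2 * r) := one_le_pow₀ h8r
    linarith
  have hr0 : (0 : ℝ) < r := by rw [hr]; positivity
  set b : ℝ := c0 / (4 * r) with hb
  have hbpos : 0 < b := by rw [hb]; positivity
  refine ⟨b, hbpos, ?_⟩
  set η : ℝ := d - k * (1 - 1 / (k : ℝ)) ^ s with hη
  have hηpos : 0 < η := by rw [hη]; linarith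
  set θs : ℝ := (1 - 1 / (k : ℝ)) ^ s with hθs
  -- constants
  have hev : ∀ {η : ℝ}, 0 < η → ∀ C : ℝ, ∀ᶠ N : ℕ in atTop, C ≤ (N : ℝ) ^ η := fun h C =>
    Pool.Agent.V11298.CR.ev_pow h C
  -- polynomials against exponentials
  have hpe : ∀ᶠ P : ℕ in atTop, ((16 * r * P : ℕ) : ℝ) ^ k + 1 ≤
      Real.exp (b * (P : ℝ) ^ β) := by
    obtain ⟨n, hn⟩ := exists_nat_ge (k / β)
    have h1 := (isLittleO_pow_exp_pos_mul_atTop n hbpos).bound
      (show (0 : ℝ) < 1 / (2 * (16 * r) ^ k) by positivity)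
    have h2 : Tendsto (fun P : ℕ => (P : ℝ) ^ β) atTop atTop :=
      (tendsto_rpow_atTop hβ0).comp tendsto_natCast_atTop_atTop
    filter_upwards [h2.eventually h1, eventually_ge_atTop 1] with P hP1 hP
    have hP' : (1 : ℝ) ≤ P := by exact_mod_cast hP
    rw [Real.norm_of_nonneg (by positivity), Real.norm_of_nonneg (by positivity)] at hP1
    have h3 : (P : ℝ) ^ k ≤ ((P : ℝ) ^ β) ^ n := by
      rw [← Real.rpow_natCast (P : ℝ) k, ← Real.rpow_natCast ((P : ℝ) ^ β) n,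
        ← Real.rpow_mul (by positivity)]
      refine Real.rpow_le_rpow_of_exponent_le hP' ?_
      rw [div_le_iff₀ hβ0] at hn
      linarith
    have h4 : (P : ℝ) ^ k * (2 * (16 * r) ^ k) ≤ Real.exp (b * (P : ℝ) ^ β) := by
      have h5 := h3.trans hP1
      rw [one_div, inv_mul_eq_div, le_div_iff₀ (by positivity)] at h5
      exact h5
    refine le_trans ?_ h4
    push_cast
    rw [mul_pow]
    have h6 : (1 : ℝ) ≤ (16 * r) ^ k * (P : ℝ) ^ k := by
      have e1 : (1 : ℝ) ≤ (16 * r) ^ k := by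
        refine one_le_pow₀ ?_
        have : (1 : ℝ) ≤ r := by rw [hr]; push_cast; linarith
        linarith
      have e2 : (1 : ℝ) ≤ (P : ℝ) ^ k := one_le_pow₀ hP'
      nlinarith
    nlinarith
  filter_upwards [hpe, hev hβ0 (4 * r : ℝ), hev (show 0 < 1 - β by linarith) 2,
    hev (show (0 : ℝ) < 1 / 2 by norm_num) ((2 : ℝ) ^ r),
    hev hηpos (4 * (k * 2 ^ k : ℝ) ^ s * (((16 * r : ℕ) : ℝ) ^ k) ^ θs),
    eventually_ge_atTop (16 * r)] with P hP1 hP2 hP3 hP4 hP5 hP6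
  have hPr : 16 * r ≤ P := hP6
  have hP0 : 1 ≤ P := by omega
  have hP0' : (1 : ℝ) ≤ P := by exact_mod_cast hP0
  have hPpos : (0 : ℝ) < P := by linarith
  set L := ⌊(P : ℝ) ^ (1 - β)⌋₊ with hL
  have hLle : (L : ℝ) ≤ (P : ℝ) ^ (1 - β) := Nat.floor_le (by positivity)
  have hLge : (P : ℝ) ^ (1 - β) / 2 ≤ L := by
    have := Nat.lt_floor_add_one ((P : ℝ) ^ (1 - β))
    rw [← hL] at this
    linarith
  have hL1 : (1 : ℝ) ≤ L := by linarith
  have hL1' : 1 ≤ L := by exact_mod_cast hL1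
  set M := P / (r * L) with hM
  have hMle : M * (r * L) ≤ P := Nat.div_mul_le_self P (r * L)
  have hPβ : (P : ℝ) = (P : ℝ) ^ β * (P : ℝ) ^ (1 - β) := by
    rw [← Real.rpow_add hPpos]
    simp
  have hMge : (P : ℝ) ^ β / (2 * r) ≤ M := by
    have h1 : (P : ℝ) < (r * L) * (M + 1) := by
      have h2 : P < (r * L) * (M + 1) :=
        Nat.lt_mul_div_succ P (Nat.mul_pos (by omega) hL1')
      exact_mod_cast h2
    have h2 : (r * L : ℝ) * (M + 1) ≤ (r * (P : ℝ) ^ (1 - β)) * (M + 1) := by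
      refine mul_le_mul_of_nonneg_right ?_ (by positivity)
      exact mul_le_mul_of_nonneg_left hLle hr0.le
    have h3 : (P : ℝ) ^ β * (P : ℝ) ^ (1 - β) < (r * (M + 1)) * (P : ℝ) ^ (1 - β) := by
      rw [← hPβ]
      calc (P : ℝ) < _ := h1
        _ ≤ _ := h2
        _ = _ := by ring
    have h4 : (P : ℝ) ^ β < r * (M + 1) := lt_of_mul_lt_mul_right h3 (by positivity)
    rw [div_le_iff₀ (by positivity)]
    nlinarith
  have hDle : P ^ d ≤ L ^ r := by
    have h1 : ((P : ℝ) ^ (1 - β) / 2) ^ r ≤ (L : ℝ) ^ r := pow_le_pow_left₀ (by positivity) hLge r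
    have h2 : ((P : ℝ) ^ (1 - β) / 2) ^ r = (P : ℝ) ^ d * (P : ℝ) ^ (1 / 2 : ℝ) / 2 ^ r := by
      rw [div_pow, ← Real.rpow_natCast ((P : ℝ) ^ (1 - β)) r, ← Real.rpow_mul (by positivity),
        mul_comm (1 - β) (r : ℝ), hrβ, Real.rpow_add hPpos, Real.rpow_natCast]
    have h3 : (P : ℝ) ^ d ≤ (P : ℝ) ^ d * (P : ℝ) ^ (1 / 2 : ℝ) / 2 ^ r := by
      rw [le_div_iff₀ (by positivity)]
      exact mul_le_mul_of_nonneg_left hP4 (by positivity)
    have h4 : (P : ℝ) ^ d ≤ (L : ℝ) ^ r := by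
      rw [h2] at h1
      exact h3.trans h1
    exact_mod_cast h4
  have hD16 : 16 * r ≤ P ^ d := by
    calc 16 * r ≤ P := hPr
      _ = P ^ 1 := (pow_one P).symm
      _ ≤ P ^ d := Nat.pow_le_pow_right hP0 hd
  have hDP : P ^ d ≤ P ^ k := Nat.pow_le_pow_right hP0 hdk
  have hgr : (k * 2 ^ k : ℝ) ^ s * (((16 * r * P : ℕ) : ℝ) ^ k) ^ θs ≤ ((P ^ d : ℕ) : ℝ) / 4 := by
    have h1 : (((16 * r * P : ℕ) : ℝ) ^ k) ^ θs =
        (((16 * r : ℕ) : ℝ) ^ k) ^ θs * (P : ℝ) ^ (k * θs) := by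
      rw [Nat.cast_mul (16 * r) P, mul_pow, Real.mul_rpow (by positivity) (by positivity),
        ← Real.rpow_natCast (P : ℝ) k, ← Real.rpow_mul (by positivity)]
    have h2 : (P : ℝ) ^ η * (P : ℝ) ^ (k * θs) = (P : ℝ) ^ d := by
      rw [← Real.rpow_add hPpos, ← Real.rpow_natCast (P : ℝ) d]
      congr 1
      rw [hη]
      ring
    rw [h1]
    push_cast
    have h3 : (4 * (k * 2 ^ k : ℝ) ^ s * (((16 * r : ℕ) : ℝ) ^ k) ^ θs) * (P : ℝ) ^ (k * θs) ≤
        (P : ℝ) ^ η * (P : ℝ) ^ (k * θs) := mul_le_mul_of_nonneg_right hP5 (by positivity)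
    rw [h2] at h3
    push_cast at h3
    linarith
  -- the union over the targets
  have hsub : (univ.filter fun t : Fin P → Fin (P ^ d) =>
      ∃ N : ℕ, (8 * r * P) ^ k ≤ N ∧ N ≤ (16 * r * P) ^ k ∧ ¬ Rep k r s P (P ^ d) t N) ⊆
      (Icc ((8 * r * P) ^ k) ((16 * r * P) ^ k)).biUnion fun N =>
        univ.filter fun t : Fin P → Fin (P ^ d) => ¬ Rep k r s P (P ^ d) t N := by
    intro t ht
    obtain ⟨N, h1, h2, h3⟩ := (mem_filter.1 ht).2
    exact mem_biUnion.2 ⟨N, mem_Icc.2 ⟨h1, h2⟩, mem_filter.2 ⟨mem_univ _, h3⟩⟩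
  have hcardIcc : ((Icc ((8 * r * P) ^ k) ((16 * r * P) ^ k)).card : ℝ) ≤
      ((16 * r * P : ℕ) : ℝ) ^ k + 1 := by
    rw [Nat.card_Icc]
    have : (16 * r * P) ^ k + 1 - (8 * r * P) ^ k ≤ (16 * r * P) ^ k + 1 := Nat.sub_le _ _
    exact_mod_cast this
  have hexp : (1 - c0) ^ M ≤ Real.exp (-(2 * b * (P : ℝ) ^ β)) := by
    have h1 : (1 - c0) ^ M ≤ (Real.exp (-c0)) ^ M := by
      refine pow_le_pow_left₀ (by linarith) ?_ M
      have := Real.add_one_le_exp (-c0)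
      linarith
    refine h1.trans ?_
    rw [← Real.exp_nat_mul]
    refine Real.exp_le_exp.2 ?_
    have h2 : 2 * b * (P : ℝ) ^ β = c0 * ((P : ℝ) ^ β / (2 * r)) := by
      rw [hb]
      field_simp
      ring
    rw [h2]
    have := mul_le_mul_of_nonneg_left hMge hc0pos.le
    linarith
  calc _ ≤ (((Icc ((8 * r * P) ^ k) ((16 * r * P) ^ k)).biUnion fun N =>
        univ.filter fun t : Fin P → Fin (P ^ d) => ¬ Rep k r s P (P ^ d) t N).card : ℝ) :=
        Nat.cast_le.2 (card_le_card hsub)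
    _ ≤ ((∑ N ∈ Icc ((8 * r * P) ^ k) ((16 * r * P) ^ k),
        (univ.filter fun t : Fin P → Fin (P ^ d) => ¬ Rep k r s P (P ^ d) t N).card : ℕ) : ℝ) :=
        Nat.cast_le.2 card_biUnion_le
    _ ≤ ∑ N ∈ Icc ((8 * r * P) ^ k) ((16 * r * P) ^ k), ((1 - c0) ^ M * ((P : ℝ) ^ d) ^ P) := by
        push_cast
        refine sum_le_sum fun N hN => ?_
        obtain ⟨h1, h2⟩ := mem_Icc.1 hN
        have := one_target (s := s) hk (by omega : 1 ≤ r) hD16 hDP hDle hMle hgr h1 h2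
        rw [← hc0, Nat.cast_pow] at this
        exact this
    _ = ((Icc ((8 * r * P) ^ k) ((16 * r * P) ^ k)).card : ℝ) *
        ((1 - c0) ^ M * ((P : ℝ) ^ d) ^ P) := by rw [sum_const, nsmul_eq_mul]
    _ ≤ Real.exp (b * (P : ℝ) ^ β) *
        (Real.exp (-(2 * b * (P : ℝ) ^ β)) * ((P : ℝ) ^ d) ^ P) := by
        refine mul_le_mul (hcardIcc.trans hP1) ?_ ?_ (by positivity)
        · exact mul_le_mul_of_nonneg_right hexp (by positivity)
        · have : 0 ≤ 1 - c0 := by linarith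
          positivity
    _ = _ := by
        rw [← mul_assoc, ← Real.exp_add]
        congr 2
        ring

end Pool.Agent.V11298.WA
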