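import Mathlib
import Pool.Agent.V11298.WA.Mai

/-!
Waring's problem with randomly perturbed powers: corollaries.
-/

set_option autoImplicit false

open Finset Filter Topology

namespace Pool.Agent.V11298.WA

/-- One fixed perturbation for all large integers. -/
theorem exists_perturbation {k d s : ℕ} (hd : 1 ≤ d) (hdk : d ≤ k)
    (hs : (k : ℝ) * (1 - 1 / (k : ℝ)) ^ s < d) : ∃ τ : ℕ → ℕ, (∀ n, τ n ≤ n ^ d) ∧
    ∃ N₀ : ℕ, ∀ N, N₀ ≤ N → ∃ (n : Fin (d + 1) → ℕ) (g : Fin s → ℕ), Function.Injective n ∧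
      ∑ i, (n i ^ k + τ (n i)) + ∑ j, g j ^ k = N := by
  classical
  have hk : 1 ≤ k := hd.trans hdk
  obtain ⟨c, hc, hev⟩ := main hd hdk hs
  obtain ⟨P₀, hP₀⟩ := eventually_atTop.1 hev
  have hgood : ∀ P : ℕ, max P₀ 1 ≤ P → ∃ t : Fin P → Fin (P ^ d), ∀ N : ℕ,
      (8 * (d + 1) * P) ^ k ≤ N → N ≤ (16 * (d + 1) * P) ^ k → Rep k (d + 1) s P (P ^ d) t N := by
    intro P hP
    have hP1 : 1 ≤ P := (le_max_right _ _).trans hP
    have h1 := hP₀ P ((le_max_left _ _).trans hP)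
    by_contra hcon
    push Not at hcon
    have h2 : (univ.filter fun t : Fin P → Fin (P ^ d) =>
      ∃ N : ℕ, (8 * (d + 1) * P) ^ k ≤ N ∧ N ≤ (16 * (d + 1) * P) ^ k ∧
        ¬ Rep k (d + 1) s P (P ^ d) t N) = univ := by
      refine filter_eq_self.2 fun t _ => ?_
      obtain ⟨N, h3, h4, h5⟩ := hcon t
      exact ⟨N, h3, h4, h5⟩
    have h3 : ((univ : Finset (Fin P → Fin (P ^ d))).card : ℝ) = ((P : ℝ) ^ d) ^ P := by
      simp
    have hPpos : (0 : ℝ) < P := by exact_mod_cast hP1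
    have h4 : Real.exp (-(c * (P : ℝ) ^ (1 / (2 * (d : ℝ) + 2)))) < 1 := by
      rw [Real.exp_lt_one_iff]
      have : 0 < c * (P : ℝ) ^ (1 / (2 * (d : ℝ) + 2)) := by positivity
      linarith
    have h2c := congrArg Finset.card h2
    rw [h2c, h3] at h1
    have h5 := h1
    have h6 : (0 : ℝ) < ((P : ℝ) ^ d) ^ P := by positivity
    nlinarith
  choose T hT using hgood
  set T' : ℕ → ℕ → ℕ := fun m y =>
    if h : max P₀ 1 ≤ 2 ^ m ∧ y < 2 ^ m then (T (2 ^ m) h.1 ⟨y, h.2⟩ : ℕ) else 0 with hT'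
  have hT'le : ∀ m y, T' m y ≤ (2 ^ m) ^ d := by
    intro m y
    simp only [hT']
    split_ifs with h
    · exact (T (2 ^ m) h.1 ⟨y, h.2⟩).2.le
    · exact Nat.zero_le _
  set τ : ℕ → ℕ := fun n =>
    if n = 0 then 0 else T' (Nat.log 2 n) (n - 2 ^ Nat.log 2 n) with hτ
  have hτval : ∀ m (hm : max P₀ 1 ≤ 2 ^ m) (x : Fin (2 ^ m)),
      τ (2 ^ m + (x : ℕ)) = (T (2 ^ m) hm x : ℕ) := by
    intro m hm x
    have hx := x.2
    have hlog : Nat.log 2 (2 ^ m + (x : ℕ)) = m := by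
      refine Nat.log_eq_of_pow_le_of_lt_pow (Nat.le_add_right _ _) ?_
      rw [pow_succ]
      omega
    have h2 : 2 ^ m + (x : ℕ) - 2 ^ m = x := by omega
    have h3 : 2 ^ m + (x : ℕ) ≠ 0 := by
      have : 0 < 2 ^ m := by positivity
      omega
    have h4 : τ (2 ^ m + (x : ℕ)) =
        T' (Nat.log 2 (2 ^ m + (x : ℕ))) (2 ^ m + (x : ℕ) - 2 ^ Nat.log 2 (2 ^ m + (x : ℕ))) := by
      simp only [hτ]
      rw [if_neg h3]
    rw [h4, hlog, h2]
    simp only [hT']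
    rw [dif_pos ⟨hm, hx⟩]
  refine ⟨τ, fun n => ?_, ?_⟩
  · simp only [hτ]
    split_ifs with h
    · exact Nat.zero_le _
    · exact (hT'le _ _).trans (Nat.pow_le_pow_left (Nat.pow_log_le_self 2 h) d)
  · set m₀ := max P₀ 1 with hm₀
    refine ⟨(8 * (d + 1) * 2 ^ m₀) ^ k, fun N hN => ?_⟩
    -- the largest `m` with `(8 (d + 1) 2 ^ m) ^ k ≤ N`
    have hex : ∃ m, N < (8 * (d + 1) * 2 ^ (m + 1)) ^ k := by
      refine ⟨N, ?_⟩
      calc N < 2 ^ N := Nat.lt_two_pow_self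
        _ ≤ 8 * (d + 1) * 2 ^ (N + 1) := by
            have : 2 ^ N ≤ 2 ^ (N + 1) := Nat.pow_le_pow_right (by norm_num) (by omega)
            exact this.trans (Nat.le_mul_of_pos_left _ (by positivity))
        _ = (8 * (d + 1) * 2 ^ (N + 1)) ^ 1 := (pow_one _).symm
        _ ≤ _ := Nat.pow_le_pow_right (by positivity) hk
    set m := Nat.find hex with hm
    have h1 : N < (8 * (d + 1) * 2 ^ (m + 1)) ^ k := Nat.find_spec hex
    have h2 : m₀ ≤ m := by
      by_contra hcon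
      push Not at hcon
      have : (8 * (d + 1) * 2 ^ (m + 1)) ^ k ≤ (8 * (d + 1) * 2 ^ m₀) ^ k := by
        refine Nat.pow_le_pow_left (Nat.mul_le_mul_left _ ?_) k
        exact Nat.pow_le_pow_right (by norm_num) (by omega)
      omega
    have h3 : (8 * (d + 1) * 2 ^ m) ^ k ≤ N := by
      rcases Nat.eq_zero_or_pos m with h | h
      · have : m₀ = m := by omega
        rw [← this]
        exact hN
      · have h4 := Nat.find_min hex (m := m - 1) (by omega)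
        push Not at h4
        have : m - 1 + 1 = m := by omega
        rwa [this] at h4
    have h4 : max P₀ 1 ≤ 2 ^ m := by
      calc max P₀ 1 ≤ m := h2
        _ ≤ 2 ^ m := Nat.lt_two_pow_self.le
    have h5 : N ≤ (16 * (d + 1) * 2 ^ m) ^ k := by
      have : 8 * (d + 1) * 2 ^ (m + 1) = 16 * (d + 1) * 2 ^ m := by ring
      rw [this] at h1
      exact h1.le
    obtain ⟨x, g, hx, hsum⟩ := hT (2 ^ m) h4 N h3 h5
    refine ⟨fun i => 2 ^ m + (x i : ℕ), g, ?_, ?_⟩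
    · intro i j hij
      refine hx (Fin.ext ?_)
      have : 2 ^ m + (x i : ℕ) = 2 ^ m + (x j : ℕ) := hij
      omega
    · rw [← hsum]
      congr 1
      refine sum_congr rfl fun i _ => ?_
      rw [hτval m h4]

/-- The parameters for a linear number of summands. -/
theorem params {k : ℕ} (hk : 1 ≤ k) {ε : ℝ} (h0 : 0 < ε) (h1 : ε ≤ 1) :
    1 ≤ ⌈ε * k⌉₊ ∧ ⌈ε * k⌉₊ ≤ k ∧
    (k : ℝ) * (1 - 1 / (k : ℝ)) ^ (⌊k * Real.log (1 / ε)⌋₊ + 1) < (⌈ε * k⌉₊ : ℕ) ∧
    ((⌈ε * k⌉₊ + 1 + (⌊k * Real.log (1 / ε)⌋₊ + 1) : ℕ) : ℝ) ≤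
      (ε + Real.log (1 / ε)) * k + 3 := by
  have hk0 : (0 : ℝ) < k := by exact_mod_cast hk
  have hk1 : (1 : ℝ) ≤ k := by exact_mod_cast hk
  have hlog : 0 ≤ Real.log (1 / ε) := Real.log_nonneg (by rw [le_div_iff₀ h0]; linarith)
  refine ⟨Nat.one_le_ceil_iff.2 (by positivity), Nat.ceil_le.2 (by nlinarith), ?_, ?_⟩
  · set s := ⌊k * Real.log (1 / ε)⌋₊ + 1 with hs
    have h2 : k * Real.log (1 / ε) < s := by
      rw [hs]
      push_cast
      exact Nat.lt_floor_add_one _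
    have hθ0 : 0 ≤ 1 - 1 / (k : ℝ) := by
      rw [sub_nonneg, div_le_one hk0]
      exact hk1
    have h3 : (1 - 1 / (k : ℝ)) ^ s ≤ Real.exp (-(s / k)) := by
      have h4 : 1 - 1 / (k : ℝ) ≤ Real.exp (-(1 / k)) := by
        have := Real.add_one_le_exp (-(1 / (k : ℝ)))
        linarith
      calc (1 - 1 / (k : ℝ)) ^ s ≤ (Real.exp (-(1 / (k : ℝ)))) ^ s := pow_le_pow_left₀ hθ0 h4 s
        _ = Real.exp (-(s / k)) := by
          rw [← Real.exp_nat_mul]
          congr 1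
          ring
    have h4 : Real.exp (-(s / k)) < ε := by
      rw [← Real.lt_log_iff_exp_lt h0]
      have h5 : Real.log (1 / ε) < s / k := by
        rw [lt_div_iff₀ hk0]
        linarith
      rw [one_div, Real.log_inv] at h5
      linarith
    calc (k : ℝ) * (1 - 1 / (k : ℝ)) ^ s < k * ε :=
          mul_lt_mul_of_pos_left (lt_of_le_of_lt h3 h4) hk0
      _ = ε * k := mul_comm _ _
      _ ≤ _ := Nat.le_ceil _
  · have h2 : (⌈ε * k⌉₊ : ℝ) < ε * k + 1 := Nat.ceil_lt_add_one (by positivity)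
    have h3 : (⌊k * Real.log (1 / ε)⌋₊ : ℝ) ≤ k * Real.log (1 / ε) :=
      Nat.floor_le (by positivity)
    push_cast
    linarith

end Pool.Agent.V11298.WA
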